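import Pool.Agent.Helper61.QT.GoalsH

/-!
# Packet QT-COM2: the two transports commute
-/

set_option autoImplicit false

namespace Pool.Agent.Helper86.QT

open Set Pool.Agent.Helper61.QT
open Pool.Agent.Helper61.QS (V En R4 IsTrans G_OD2 G_OD4)

theorem der1 {n : ℕ} (g : R4 → En n) (hg : ContDiff ℝ 1 g) (r θ α β : ℝ) :
    HasDerivAt (fun t => g (t, θ, α, β)) (fderiv ℝ g (r, θ, α, β) (1, 0, 0, 0)) r := by
  have h1 : HasFDerivAt g (fderiv ℝ g (r, θ, α, β)) (r, θ, α, β) :=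
    (hg.differentiable one_ne_zero (r, θ, α, β)).hasFDerivAt
  have h2 : HasDerivAt (fun t : ℝ => ((t, θ, α, β) : R4)) (1, 0, 0, 0) r :=
    (hasDerivAt_id r).prodMk (hasDerivAt_const r (θ, α, β))
  exact h1.comp_hasDerivAt r h2

theorem der2 {n : ℕ} (g : R4 → En n) (hg : ContDiff ℝ 1 g) (r θ α β : ℝ) :
    HasDerivAt (fun t => g (r, t, α, β)) (fderiv ℝ g (r, θ, α, β) (0, 1, 0, 0)) θ := by
  have h1 : HasFDerivAt g (fderiv ℝ g (r, θ, α, β)) (r, θ, α, β) :=
    (hg.differentiable one_ne_zero (r, θ, α, β)).hasFDerivAt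
  have h2 : HasDerivAt (fun t : ℝ => ((r, t, α, β) : R4)) (0, 1, 0, 0) θ :=
    (hasDerivAt_const θ r).prodMk ((hasDerivAt_id θ).prodMk (hasDerivAt_const θ (α, β)))
  exact h1.comp_hasDerivAt θ h2

/-- Packet QT-COM2. -/
theorem goalCOM2 (hOD2 : Pool.Agent.Helper61.QS.G_OD2) (hOD4 : Pool.Agent.Helper61.QS.G_OD4) :
    G_COM2 := by
  intro a1 b1 n ε b c R T hD hT
  -- intertwining of `R` and `T` with `ε`
  have iR : ∀ r θ α β, ε (r, θ, α, β) * R (r, θ, α, β) = R (r, θ, α, β) * ε (0, θ, α, β) := by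
    intro r θ α β
    have h := (hOD2 n (fun t => b (t, θ, α, β)) (fun t => R (t, θ, α, β))
      (fun t => hD.skp _) (hT.R0 θ α β) (fun t => hT.dR t θ α β)).2
      (fun t => ε (t, θ, α, β) * R (t, θ, α, β)) ?_ r
    · simp only [hT.R0, mul_one] at h
      exact h
    · intro t
      have h1 := (der1 ε hD.smε t θ α β).mul (hT.dR t θ α β)
      refine h1.congr_deriv ?_
      rw [hD.dr]
      noncomm_ring
  have iT : ∀ r θ α β, ε (r, θ, α, β) * T (r, θ, α, β) = T (r, θ, α, β) * ε (r, 0, α, β) := by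
    intro r θ α β
    have h := (hOD2 n (fun t => c (r, t, α, β)) (fun t => T (r, t, α, β))
      (fun t => hD.skq _) (hT.T0 r α β) (fun t => hT.dT r t α β)).2
      (fun t => ε (r, t, α, β) * T (r, t, α, β)) ?_ θ
    · simp only [hT.T0, mul_one] at h
      exact h
    · intro t
      have h1 := (der2 ε hD.smε r t α β).mul (hT.dT r t α β)
      refine h1.congr_deriv ?_
      rw [hD.ds]
      noncomm_ring
  intro r₀ θ₀ α β
  -- the derivative of `T` in `r`
  obtain ⟨c', hc'⟩ : ∃ c' : ℝ × ℝ → En n, c' = fun z => c (z.1, z.2, α, β) := ⟨_, rfl⟩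
  have hc's : ContDiff ℝ 1 c' := by
    rw [hc']
    exact hD.smq.comp (contDiff_fst.prodMk (contDiff_snd.prodMk contDiff_const))
  obtain ⟨D, hD1, hD0, hD2⟩ := hOD4 n c' hc's (fun z => by rw [hc']; exact hD.skq _)
    (fun l t => T (l, t, α, β)) (fun l => hT.T0 l α β) (fun l t => by
      rw [hc']
      exact hT.dT l t α β)
  have hfd : ∀ l t, fderiv ℝ c' (l, t) (1, 0) = fderiv ℝ c (l, t, α, β) (1, 0, 0, 0) := by
    intro l t
    have h1 : HasDerivAt (fun s => c' (s, t)) (fderiv ℝ c' (l, t) (1, 0)) l := by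
      have k1 : HasFDerivAt c' (fderiv ℝ c' (l, t)) (l, t) :=
        (hc's.differentiable one_ne_zero (l, t)).hasFDerivAt
      have k2 : HasDerivAt (fun s : ℝ => ((s, t) : ℝ × ℝ)) (1, 0) l :=
        (hasDerivAt_id l).prodMk (hasDerivAt_const l t)
      exact k1.comp_hasDerivAt l k2
    have h2 := der1 c hD.smq l t α β
    have h3 : (fun s => c' (s, t)) = fun s => c (s, t, α, β) := by rw [hc']
    rw [h3] at h1
    exact h1.unique h2
  obtain ⟨e0, he0⟩ : ∃ e0, e0 = ε (0, 0, α, β) := ⟨_, rfl⟩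
  -- `Y = (∂_r L - b L) ε₀ = 0`
  have hY : ∀ r θ, (D r θ * R (r, 0, α, β) + T (r, θ, α, β) * (b (r, 0, α, β) * R (r, 0, α, β)) -
      b (r, θ, α, β) * (T (r, θ, α, β) * R (r, 0, α, β))) * e0 = 0 := by
    intro r θ
    have h := (hOD2 n (fun t => c (r, t, α, β)) (fun t => T (r, t, α, β))
      (fun t => hD.skq _) (hT.T0 r α β) (fun t => hT.dT r t α β)).2
      (fun t => (D r t * R (r, 0, α, β) + T (r, t, α, β) * (b (r, 0, α, β) * R (r, 0, α, β)) -
        b (r, t, α, β) * (T (r, t, α, β) * R (r, 0, α, β))) * e0) ?_ θ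
    · rw [h]
      have h0 : (D r 0 * R (r, 0, α, β) + T (r, 0, α, β) * (b (r, 0, α, β) * R (r, 0, α, β)) -
        b (r, 0, α, β) * (T (r, 0, α, β) * R (r, 0, α, β))) = 0 := by
        rw [hD0, hT.T0]
        noncomm_ring
      show T (r, θ, α, β) * (_ * e0) = 0
      rw [h0, zero_mul, mul_zero]
    · intro t
      have k1 := (hD2 r t).mul_const (R (r, 0, α, β))
      have k2 := (hT.dT r t α β).mul_const (b (r, 0, α, β) * R (r, 0, α, β))
      have k3 := (der2 b hD.smp r t α β).mul ((hT.dT r t α β).mul_const (R (r, 0, α, β)))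
      have k4 := ((k1.add k2).sub k3).mul_const e0
      refine k4.congr_deriv ?_
      rw [hfd]
      have e1 : c' (r, t) = c (r, t, α, β) := by rw [hc']
      rw [e1]
      have hfl := hD.flat (r, t, α, β)
      have hL : T (r, t, α, β) * R (r, 0, α, β) * e0 =
          ε (r, t, α, β) * (T (r, t, α, β) * R (r, 0, α, β)) := by
        rw [he0, mul_assoc, ← iR r 0 α β, ← mul_assoc, ← iT r t α β, mul_assoc]
      have e2 : (fderiv ℝ c (r, t, α, β) (1, 0, 0, 0) - fderiv ℝ b (r, t, α, β) (0, 1, 0, 0) -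
          (b (r, t, α, β) * c (r, t, α, β) - c (r, t, α, β) * b (r, t, α, β))) *
          (T (r, t, α, β) * R (r, 0, α, β) * e0) = 0 := by
        rw [hL, ← mul_assoc, hfl, zero_mul]
      have e3 := e2
      simp only [Prod.mk_zero_zero] at e3
      rw [← sub_eq_zero, ← e2]
      noncomm_ring
  -- the `r`-derivative of `L ε₀`
  have hfin := (hOD2 n (fun t => b (t, θ₀, α, β)) (fun t => R (t, θ₀, α, β))
      (fun t => hD.skp _) (hT.R0 θ₀ α β) (fun t => hT.dR t θ₀ α β)).2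
      (fun t => T (t, θ₀, α, β) * R (t, 0, α, β) * e0) ?_ r₀
  · simp only [hT.R0, mul_one] at hfin
    rw [he0] at hfin
    rw [hfin, mul_assoc]
  · intro t
    have k := ((hD1 t θ₀).mul (hT.dR t 0 α β)).mul_const e0
    refine k.congr_deriv ?_
    have h := hY t θ₀
    rw [sub_mul, sub_eq_zero] at h
    rw [h]
    noncomm_ring

end Pool.Agent.Helper86.QT
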