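import Pool.Agent.Helper61.QT.GoalsG

/-!
# Project QT (MP_0ebdb3_gt), packet GFR: frames that are parallel at a point (generic model)
-/

set_option autoImplicit false

open Set

namespace Pool.Agent.Helper86.QT

open Pool.Agent.Helper61 Pool.Agent.Helper61.QG Pool.Agent.Helper61.QT
open Pool.Agent.Helper61.QS (V En rk R4 finrank_V)

/-- Packet QT-GFR. -/
theorem goalGFR (hISO : Pool.Agent.Helper61.QS.G_ISO) : G_GFR := by
  intro WW _ _ M pol Reg k n e B hpl hB x0 hx0
  obtain ⟨hp1, hp2, hp3, hRo, _, hp5⟩ := hpl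
  have hX0 := hp2 x0
  have hid := hB.idem _ hX0
  have hex : ∃ J : V k →L[ℝ] V n,
      (ContinuousLinearMap.adjoint J).comp J = ContinuousLinearMap.id ℝ (V k) ∧
      J.comp (ContinuousLinearMap.adjoint J) = e (pol x0) := by
    have h : ∀ j : ℕ, rk (e (pol x0)) = j → ∃ J : V j →L[ℝ] V n,
        (ContinuousLinearMap.adjoint J).comp J = ContinuousLinearMap.id ℝ (V j) ∧
        J.comp (ContinuousLinearMap.adjoint J) = e (pol x0) := by
      rintro _ rfl
      exact (hISO n (e (pol x0)) hid (hB.symm _ hX0)).2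
    exact h k (hB.rank _ hX0)
  obtain ⟨J, hJ1, hJ2⟩ := hex
  have hJ3 : (e (pol x0)).comp J = J := by
    rw [← hJ2, ContinuousLinearMap.comp_assoc, hJ1, ContinuousLinearMap.comp_id]
  set L : R4 →L[ℝ] En n := (B (pol x0)).comp (fderiv ℝ pol x0) with hL
  set R : En n →L[ℝ] (V k →L[ℝ] V n) :=
    (ContinuousLinearMap.compL ℝ (V k) (V n) (V n)).flip J with hR
  have hRa : ∀ T : En n, R T = T.comp J := fun T => rfl
  set g : R4 → En n := fun x => e (pol x) * (1 + L (x - x0)) with hg
  have hep : ContDiff ℝ 3 fun x => e (pol x) := hB.smooth_e.comp hp1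
  have hLx : ContDiff ℝ 3 fun x : R4 => (1 : En n) + L (x - x0) :=
    contDiff_const.add (L.contDiff.comp (contDiff_id.sub contDiff_const))
  have hgs : ContDiff ℝ 3 g := hep.mul hLx
  set s : R4 → (V k →L[ℝ] V n) := fun x => R (g x) with hs
  have hss : ContDiff ℝ 3 s := R.contDiff.comp hgs
  have hs0 : s x0 = J := by
    simp only [hs, hg, hRa, sub_self, map_zero, add_zero, mul_one]
    exact hJ3
  set U : Set R4 := Reg ∩ {x | IsUnit ((ContinuousLinearMap.adjoint J).comp (s x) : En k)} with hU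
  have hUo : IsOpen U := by
    refine hRo.inter ?_
    have hc : Continuous fun x => ((ContinuousLinearMap.adjoint J).comp (s x) : En k) :=
      continuous_const.clm_comp hss.continuous
    exact Units.isOpen.preimage hc
  have hinj : ∀ x ∈ U, Function.Injective (s x) := by
    intro x hx w w' hw
    obtain ⟨u, hu⟩ := hx.2
    have h1 : (u : En k) w = (u : En k) w' := by
      rw [hu]
      change (ContinuousLinearMap.adjoint J) (s x w) = (ContinuousLinearMap.adjoint J) (s x w')
      rw [hw]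
    have h2 : ∀ z : V k, ((u⁻¹ : (En k)ˣ) : En k) ((u : En k) z) = z := by
      intro z
      have h3 : ((u⁻¹ : (En k)ˣ) : En k) * (u : En k) = 1 := u.inv_mul
      have := congrArg (fun T : En k => T z) h3
      exact this
    rw [← h2 w, h1, h2]
  refine ⟨U, s, ⟨hUo, hp1.contDiffOn, hss.contDiffOn, fun x _ => hp2 x,
    fun x hx c h => hp5 x hx.1 c h, hinj, ?_⟩, ⟨hx0, ?_⟩, ?_⟩
  · intro x hx v
    have hle : LinearMap.range (s x : V k →ₗ[ℝ] V n) ≤
        LinearMap.range (e (pol x) : V n →ₗ[ℝ] V n) := by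
      rintro _ ⟨w, rfl⟩
      exact ⟨(1 + L (x - x0)) (J w), rfl⟩
    have hfr : Module.finrank ℝ (LinearMap.range (s x : V k →ₗ[ℝ] V n)) =
        Module.finrank ℝ (LinearMap.range (e (pol x) : V n →ₗ[ℝ] V n)) := by
      rw [LinearMap.finrank_range_of_inj (hinj x hx), finrank_V]
      exact (hB.rank _ (hp2 x)).symm
    have heq := Submodule.eq_of_le_of_finrank_eq hle hfr
    have hfix : ∀ w : V n, e (pol x) (e (pol x) w) = e (pol x) w := by
      intro w
      have := congrArg (fun T : En n => T w) (hB.idem _ (hp2 x))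
      exact this
    constructor
    · intro hv
      have hm : v ∈ LinearMap.range (e (pol x) : V n →ₗ[ℝ] V n) := ⟨v, hv⟩
      rw [← heq] at hm
      obtain ⟨w, hw⟩ := hm
      exact ⟨w, hw⟩
    · rintro ⟨w, rfl⟩
      change e (pol x) (e (pol x) ((1 + L (x - x0)) (J w))) = e (pol x) ((1 + L (x - x0)) (J w))
      exact hfix _
  · change IsUnit ((ContinuousLinearMap.adjoint J).comp (s x0) : En k)
    rw [hs0, hJ1]
    exact isUnit_one
  · intro a
    rw [hs0]
    have h1 : HasFDerivAt pol (fderiv ℝ pol x0) x0 :=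
      (hp1.differentiable (by norm_num) x0).hasFDerivAt
    have h2 : HasFDerivAt e (fderiv ℝ e (pol x0)) (pol x0) :=
      (hB.smooth_e.differentiable (by norm_num) _).hasFDerivAt
    have h3 : HasFDerivAt (fun x => e (pol x)) ((fderiv ℝ e (pol x0)).comp (fderiv ℝ pol x0)) x0 :=
      h2.comp x0 h1
    have h4 : HasFDerivAt (fun x : R4 => (1 : En n) + L (x - x0)) L x0 := by
      have h5 : HasFDerivAt (fun x : R4 => x - x0) (ContinuousLinearMap.id ℝ R4) x0 :=
        (hasFDerivAt_id x0).sub_const x0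
      have h6 : HasFDerivAt (fun x : R4 => L (x - x0)) (L.comp (ContinuousLinearMap.id ℝ R4)) x0 :=
        L.hasFDerivAt.comp x0 h5
      rw [ContinuousLinearMap.comp_id] at h6
      exact h6.const_add 1
    have h7 := h3.mul' h4
    have h8 : HasFDerivAt s (R.comp _) x0 := R.hasFDerivAt.comp x0 h7
    rw [h8.fderiv]
    have hpar := hB.par _ hX0 _ (hp3 x0 a)
    have h9 : (B (pol x0) (fderiv ℝ pol x0 a)) = L a := rfl
    rw [h9] at hpar ⊢
    simp only [ContinuousLinearMap.comp_apply, add_apply, smul_apply]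
    rw [hpar, sub_self, map_zero, add_zero, MulOpposite.op_one, one_smul, smul_eq_mul,
      add_sub_cancel, hRa]
    change (L a).comp ((e (pol x0)).comp J) = _
    rw [hJ3]

end Pool.Agent.Helper86.QT
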