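import Pool.Agent.Helper61.QT.GoalsP

/-! # Packet QT+-VL: imaginary parts of the horizontal lifts -/

set_option autoImplicit false

open Set ComplexConjugate

namespace Pool.Agent.Helper86.QT.VLp

open Pool.Agent.Helper61 Pool.Agent.Helper61.QG Pool.Agent.Helper61.QT
open Pool.Agent.Helper61.QS (V En rk R4 IsCurv SecNN Gam dd)
open Pool.Agent.Helper61.QM (Model W2 Mab pol2 act2 o1 o2 rot IsRe IsIm)

private noncomputable def iL : ℝ →L[ℝ] ℂ := (1 : ℝ →L[ℝ] ℝ).smulRight Complex.I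

private noncomputable def p1 : R4 →L[ℝ] ℝ := ContinuousLinearMap.fst ℝ ℝ (ℝ × ℝ × ℝ)
private noncomputable def p2 : R4 →L[ℝ] ℝ :=
  (ContinuousLinearMap.fst ℝ ℝ (ℝ × ℝ)).comp (ContinuousLinearMap.snd ℝ ℝ (ℝ × ℝ × ℝ))
private noncomputable def p3 : R4 →L[ℝ] ℝ :=
  ((ContinuousLinearMap.fst ℝ ℝ ℝ).comp (ContinuousLinearMap.snd ℝ ℝ (ℝ × ℝ))).comp
    (ContinuousLinearMap.snd ℝ ℝ (ℝ × ℝ × ℝ))
private noncomputable def p4 : R4 →L[ℝ] ℝ :=
  ((ContinuousLinearMap.snd ℝ ℝ ℝ).comp (ContinuousLinearMap.snd ℝ ℝ (ℝ × ℝ))).comp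
    (ContinuousLinearMap.snd ℝ ℝ (ℝ × ℝ × ℝ))

private noncomputable def im4L : R4 →L[ℝ] W2 :=
  ((iL.comp p1).prod (iL.comp p2)).prod ((iL.comp p3).prod (iL.comp p4))

private lemma im4L_apply (w : R4) : im4L w = im4 w := by
  simp [im4L, iL, p1, p2, p3, p4, im4, mul_comm]

private noncomputable def q1 (a : ℤ) (z : ℝ × ℝ) : R4 →L[ℝ] ℝ :=
  Real.cos z.1 • p1 + Real.sin z.1 • p2 + (a * Real.cos z.2) • p3

private noncomputable def q2 (b : ℤ) (z : ℝ × ℝ) : R4 →L[ℝ] ℝ :=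
  (b * Real.cos z.1) • p1 + Real.cos z.2 • p3 + Real.sin z.2 • p4

private lemma q1_apply (a : ℤ) (z : ℝ × ℝ) (w : R4) : q1 a z w =
    Real.cos z.1 * w.1 + Real.sin z.1 * w.2.1 + a * Real.cos z.2 * w.2.2.1 := by
  simp [q1, p1, p2, p3]

private lemma q2_apply (b : ℤ) (z : ℝ × ℝ) (w : R4) : q2 b z w =
    b * Real.cos z.1 * w.1 + Real.cos z.2 * w.2.2.1 + Real.sin z.2 * w.2.2.2 := by
  simp [q2, p1, p3, p4]

private lemma q1_cd (a : ℤ) : ContDiff ℝ 2 (q1 a) := by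
  unfold q1
  have h1 : ContDiff ℝ 2 (fun z : ℝ × ℝ => Real.cos z.1) := Real.contDiff_cos.comp contDiff_fst
  have h2 : ContDiff ℝ 2 (fun z : ℝ × ℝ => Real.sin z.1) := Real.contDiff_sin.comp contDiff_fst
  have h3 : ContDiff ℝ 2 (fun z : ℝ × ℝ => Real.cos z.2) := Real.contDiff_cos.comp contDiff_snd
  exact ((h1.smul contDiff_const).add (h2.smul contDiff_const)).add
    ((contDiff_const.mul h3).smul contDiff_const)

private lemma q2_cd (b : ℤ) : ContDiff ℝ 2 (q2 b) := by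
  unfold q2
  have h1 : ContDiff ℝ 2 (fun z : ℝ × ℝ => Real.cos z.1) := Real.contDiff_cos.comp contDiff_fst
  have h2 : ContDiff ℝ 2 (fun z : ℝ × ℝ => Real.sin z.2) := Real.contDiff_sin.comp contDiff_snd
  have h3 : ContDiff ℝ 2 (fun z : ℝ × ℝ => Real.cos z.2) := Real.contDiff_cos.comp contDiff_snd
  exact (((contDiff_const.mul h1).smul contDiff_const).add (h3.smul contDiff_const)).add
    (h2.smul contDiff_const)

private lemma rp_mem (a b : ℤ) (z : ℝ × ℝ) : rp z ∈ (Mab a b).X := by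
  show ‖(Real.cos z.1 : ℂ)‖ ^ 2 + ‖(Real.sin z.1 : ℂ)‖ ^ 2 = 1 ∧
    ‖(Real.cos z.2 : ℂ)‖ ^ 2 + ‖(Real.sin z.2 : ℂ)‖ ^ 2 = 1
  simp only [Complex.norm_real, Real.norm_eq_abs, sq_abs]
  exact ⟨Real.cos_sq_add_sin_sq _, Real.cos_sq_add_sin_sq _⟩

private lemma im4_mem (a b : ℤ) (z : ℝ × ℝ) (w : R4) : im4 w ∈ (Mab a b).T (rp z) := by
  show (conj (Real.cos z.1 : ℂ) * (Complex.I * w.1) + conj (Real.sin z.1 : ℂ) *
      (Complex.I * w.2.1)).re = 0 ∧
    (conj (Real.cos z.2 : ℂ) * (Complex.I * w.2.2.1) + conj (Real.sin z.2 : ℂ) *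
      (Complex.I * w.2.2.2)).re = 0
  simp only [Complex.conj_ofReal]
  constructor <;> simp

private lemma er_mem (a b : ℤ) (z : ℝ × ℝ) : er z ∈ (Mab a b).T (rp z) := by
  show (conj (Real.cos z.1 : ℂ) * (-(Real.sin z.1 : ℂ)) + conj (Real.sin z.1 : ℂ) *
      (Real.cos z.1 : ℂ)).re = 0 ∧
    (conj (Real.cos z.2 : ℂ) * (0 : ℂ) + conj (Real.sin z.2 : ℂ) * (0 : ℂ)).re = 0
  simp only [Complex.conj_ofReal]
  constructor
  · rw [show (Real.cos z.1 : ℂ) * (-(Real.sin z.1 : ℂ)) + (Real.sin z.1 : ℂ) * (Real.cos z.1 : ℂ)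
      = 0 by ring]
    simp
  · simp

private lemma es_mem (a b : ℤ) (z : ℝ × ℝ) : es z ∈ (Mab a b).T (rp z) := by
  show (conj (Real.cos z.1 : ℂ) * (0 : ℂ) + conj (Real.sin z.1 : ℂ) * (0 : ℂ)).re = 0 ∧
    (conj (Real.cos z.2 : ℂ) * (-(Real.sin z.2 : ℂ)) + conj (Real.sin z.2 : ℂ) *
      (Real.cos z.2 : ℂ)).re = 0
  simp only [Complex.conj_ofReal]
  constructor
  · simp
  · rw [show (Real.cos z.2 : ℂ) * (-(Real.sin z.2 : ℂ)) + (Real.sin z.2 : ℂ) * (Real.cos z.2 : ℂ)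
      = 0 by ring]
    simp

private noncomputable def O1 (a : ℤ) (z : ℝ × ℝ) : R4 := (Real.cos z.1, Real.sin z.1, a * Real.cos z.2, 0)
private noncomputable def O2 (b : ℤ) (z : ℝ × ℝ) : R4 := (b * Real.cos z.1, 0, Real.cos z.2, Real.sin z.2)

private lemma im4_O1 (a : ℤ) (z : ℝ × ℝ) : im4 (O1 a z) = o1 a (rp z) := by
  simp only [im4, O1, o1, rp]
  push_cast
  simp [mul_assoc]

private lemma im4_O2 (b : ℤ) (z : ℝ × ℝ) : im4 (O2 b z) = o2 b (rp z) := by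
  simp only [im4, O2, o2, rp]
  push_cast
  simp [mul_assoc]

private lemma O1_mem (a b : ℤ) (z : ℝ × ℝ) : im4 (O1 a z) ∈ (Mab a b).O (rp z) :=
  ⟨1, 0, by rw [im4_O1]; simp⟩

private lemma O2_mem (a b : ℤ) (z : ℝ × ℝ) : im4 (O2 b z) ∈ (Mab a b).O (rp z) :=
  ⟨0, 1, by rw [im4_O2]; simp⟩

private lemma O_im4 (a b : ℤ) (z : ℝ × ℝ) (v : R4) (h : im4 v ∈ (Mab a b).O (rp z)) :
    ∃ σ τ : ℝ, v = σ • O1 a z + τ • O2 b z := by
  obtain ⟨σ, τ, h⟩ := h
  refine ⟨σ, τ, ?_⟩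
  rw [← im4_O1, ← im4_O2, ← im4L_apply, ← im4L_apply, ← im4L_apply, ← map_smul, ← map_smul,
    ← map_add, im4L_apply, im4L_apply] at h
  have hI : ∀ x y : ℝ, Complex.I * (x : ℂ) = Complex.I * (y : ℂ) → x = y := by
    intro x y hxy
    exact_mod_cast mul_left_cancel₀ Complex.I_ne_zero hxy
  simp only [im4, Prod.mk.injEq] at h
  obtain ⟨⟨h1, h2⟩, h3, h4⟩ := h
  exact Prod.ext (hI _ _ h1) (Prod.ext (hI _ _ h2) (Prod.ext (hI _ _ h3) (hI _ _ h4)))

private lemma finrank_dual : Module.finrank ℝ R4 = Module.finrank ℝ (R4 →L[ℝ] ℝ) := by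
  have h := (LinearMap.toContinuousLinearMap (𝕜 := ℝ) (E := R4) (F' := ℝ)).finrank_eq
  rw [← h, Subspace.dual_finrank_eq]

private noncomputable def NN (a b : ℤ) (gM : W2 → W2 →L[ℝ] W2 →L[ℝ] ℝ) (z : ℝ × ℝ) :
    R4 →L[ℝ] (R4 →L[ℝ] ℝ) :=
  ((im4L.precomp ℝ).comp ((gM (rp z)).comp im4L) + (q1 a z).smulRight (q1 a z)) +
    (q2 b z).smulRight (q2 b z)

private lemma NN_apply (a b : ℤ) (gM : W2 → W2 →L[ℝ] W2 →L[ℝ] ℝ) (z : ℝ × ℝ) (v w : R4) :
    NN a b gM z v w = gM (rp z) (im4 v) (im4 w) + q1 a z v * q1 a z w + q2 b z v * q2 b z w := by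
  simp [NN, im4L_apply]

private lemma rp_cd : ContDiff ℝ 2 rp := by
  unfold rp
  have c1 : ContDiff ℝ 2 (fun z : ℝ × ℝ => (Real.cos z.1 : ℂ)) :=
    Complex.ofRealCLM.contDiff.comp (Real.contDiff_cos.comp contDiff_fst)
  have s1 : ContDiff ℝ 2 (fun z : ℝ × ℝ => (Real.sin z.1 : ℂ)) :=
    Complex.ofRealCLM.contDiff.comp (Real.contDiff_sin.comp contDiff_fst)
  have c2 : ContDiff ℝ 2 (fun z : ℝ × ℝ => (Real.cos z.2 : ℂ)) :=
    Complex.ofRealCLM.contDiff.comp (Real.contDiff_cos.comp contDiff_snd)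
  have s2 : ContDiff ℝ 2 (fun z : ℝ × ℝ => (Real.sin z.2 : ℂ)) :=
    Complex.ofRealCLM.contDiff.comp (Real.contDiff_sin.comp contDiff_snd)
  exact (c1.prodMk s1).prodMk (c2.prodMk s2)

private lemma er_cd : ContDiff ℝ 2 er := by
  unfold er
  have c1 : ContDiff ℝ 2 (fun z : ℝ × ℝ => (Real.cos z.1 : ℂ)) :=
    Complex.ofRealCLM.contDiff.comp (Real.contDiff_cos.comp contDiff_fst)
  have s1 : ContDiff ℝ 2 (fun z : ℝ × ℝ => (Real.sin z.1 : ℂ)) :=
    Complex.ofRealCLM.contDiff.comp (Real.contDiff_sin.comp contDiff_fst)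
  exact (s1.neg.prodMk c1).prodMk (contDiff_const.prodMk contDiff_const)

private lemma es_cd : ContDiff ℝ 2 es := by
  unfold es
  have c2 : ContDiff ℝ 2 (fun z : ℝ × ℝ => (Real.cos z.2 : ℂ)) :=
    Complex.ofRealCLM.contDiff.comp (Real.contDiff_cos.comp contDiff_snd)
  have s2 : ContDiff ℝ 2 (fun z : ℝ × ℝ => (Real.sin z.2 : ℂ)) :=
    Complex.ofRealCLM.contDiff.comp (Real.contDiff_sin.comp contDiff_snd)
  exact (contDiff_const.prodMk contDiff_const).prodMk (s2.neg.prodMk c2)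

private lemma NN_cd (a b : ℤ) (gM : W2 → W2 →L[ℝ] W2 →L[ℝ] ℝ) (hg : ContDiff ℝ 3 gM) :
    ContDiff ℝ 2 (NN a b gM) := by
  have h0 : ContDiff ℝ 2 (fun z => gM (rp z)) := (hg.of_le (by norm_num)).comp rp_cd
  have h1 : ContDiff ℝ 2 (fun z => (im4L.precomp ℝ).comp ((gM (rp z)).comp im4L)) :=
    contDiff_const.clm_comp (h0.clm_comp contDiff_const)
  exact (h1.add ((q1_cd a).smulRight (q1_cd a))).add ((q2_cd b).smulRight (q2_cd b))

private lemma NN_inj (a b : ℤ) (gM : W2 → W2 →L[ℝ] W2 →L[ℝ] ℝ) (hb : IsBase (Mab a b) gM)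
    (z : ℝ × ℝ) : Function.Injective (NN a b gM z) := by
  rw [injective_iff_map_eq_zero]
  intro v hv
  have h := NN_apply a b gM z v v
  rw [hv] at h
  have h' : (0 : ℝ) = gM (rp z) (im4 v) (im4 v) + q1 a z v * q1 a z v + q2 b z v * q2 b z v := h
  by_cases hO : im4 v ∈ (Mab a b).O (rp z)
  · rw [hb.horiz _ (rp_mem a b z) _ hO _ (im4_mem a b z v)] at h'
    have e1 : q1 a z v = 0 := by nlinarith [mul_self_nonneg (q1 a z v), mul_self_nonneg (q2 b z v)]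
    have e2 : q2 b z v = 0 := by nlinarith [mul_self_nonneg (q1 a z v), mul_self_nonneg (q2 b z v)]
    obtain ⟨σ, τ, hv'⟩ := O_im4 a b z v hO
    have k1 : v.1 = σ * Real.cos z.1 + τ * (b * Real.cos z.1) := by
      rw [hv']; simp [O1, O2]
    have k2 : v.2.1 = σ * Real.sin z.1 := by
      rw [hv']; simp [O1, O2]
    have k3 : v.2.2.1 = σ * (a * Real.cos z.2) + τ * Real.cos z.2 := by
      rw [hv']; simp [O1, O2]
    have k4 : v.2.2.2 = τ * Real.sin z.2 := by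
      rw [hv']; simp [O1, O2]
    rw [q1_apply] at e1
    rw [q2_apply] at e2
    have hs : v.1 * v.1 + v.2.1 * v.2.1 + v.2.2.1 * v.2.2.1 + v.2.2.2 * v.2.2.2 = 0 := by
      have : v.1 * v.1 + v.2.1 * v.2.1 + v.2.2.1 * v.2.2.1 + v.2.2.2 * v.2.2.2 =
          σ * (Real.cos z.1 * v.1 + Real.sin z.1 * v.2.1 + a * Real.cos z.2 * v.2.2.1) +
          τ * (b * Real.cos z.1 * v.1 + Real.cos z.2 * v.2.2.1 + Real.sin z.2 * v.2.2.2) := by
        linear_combination v.1 * k1 + v.2.1 * k2 + v.2.2.1 * k3 + v.2.2.2 * k4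
      rw [this, e1, e2]
      ring
    have n1 := mul_self_nonneg v.1
    have n2 := mul_self_nonneg v.2.1
    have n3 := mul_self_nonneg v.2.2.1
    have n4 := mul_self_nonneg v.2.2.2
    have z1 : v.1 = 0 := mul_self_eq_zero.1 (by linarith)
    have z2 : v.2.1 = 0 := mul_self_eq_zero.1 (by linarith)
    have z3 : v.2.2.1 = 0 := mul_self_eq_zero.1 (by linarith)
    have z4 : v.2.2.2 = 0 := mul_self_eq_zero.1 (by linarith)
    exact Prod.ext z1 (Prod.ext z2 (Prod.ext z3 z4))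
  · have := hb.pos _ (rp_mem a b z) _ (im4_mem a b z v) hO
    nlinarith [mul_self_nonneg (q1 a z v), mul_self_nonneg (q2 b z v)]

private noncomputable def EE (a b : ℤ) (gM : W2 → W2 →L[ℝ] W2 →L[ℝ] ℝ)
    (hb : IsBase (Mab a b) gM) (z : ℝ × ℝ) : R4 ≃L[ℝ] (R4 →L[ℝ] ℝ) :=
  (LinearMap.linearEquivOfInjective (NN a b gM z : R4 →ₗ[ℝ] (R4 →L[ℝ] ℝ))
    (NN_inj a b gM hb z) finrank_dual).toContinuousLinearEquiv

private lemma EE_coe (a b : ℤ) (gM : W2 → W2 →L[ℝ] W2 →L[ℝ] ℝ)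
    (hb : IsBase (Mab a b) gM) (z : ℝ × ℝ) :
    (EE a b gM hb z : R4 →L[ℝ] (R4 →L[ℝ] ℝ)) = NN a b gM z := by
  refine ContinuousLinearMap.ext fun v => ?_
  simp [EE]

/-- The solution for an arbitrary field. -/
private lemma sol (a b : ℤ) (gM : W2 → W2 →L[ℝ] W2 →L[ℝ] ℝ) (hb : IsBase (Mab a b) gM)
    (ef : ℝ × ℝ → W2) (hef : ContDiff ℝ 2 ef) (hT : ∀ z, ef z ∈ (Mab a b).T (rp z)) :
    ∃ v : ℝ × ℝ → R4, ContDiff ℝ 2 v ∧ (∀ z, Gauge a b z (v z)) ∧
      ∀ z w, gM (rp z) (ef z + im4 (v z)) (im4 w) = 0 := by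
  have hcd : ContDiff ℝ 2 (fun z => gM (rp z)) := (hb.smooth.of_le (by norm_num)).comp rp_cd
  let l : ℝ × ℝ → (R4 →L[ℝ] ℝ) := fun z => im4L.precomp ℝ (gM (rp z) (ef z))
  have hl : ContDiff ℝ 2 l := contDiff_const.clm_apply (hcd.clm_apply hef)
  let v : ℝ × ℝ → R4 := fun z => -((NN a b gM z).inverse (l z))
  have hv : ContDiff ℝ 2 v := by
    rw [contDiff_iff_contDiffAt]
    intro z
    have h1 : ContDiffAt ℝ 2 ContinuousLinearMap.inverse (NN a b gM z) := by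
      rw [← EE_coe a b gM hb z]
      exact contDiffAt_map_inverse _
    have h2 : ContDiffAt ℝ 2 (fun z => (NN a b gM z).inverse) z :=
      h1.comp z (NN_cd a b gM hb.smooth).contDiffAt
    exact (h2.clm_apply hl.contDiffAt).neg
  have key : ∀ z w, gM (rp z) (im4 (v z)) (im4 w) + q1 a z (v z) * q1 a z w +
      q2 b z (v z) * q2 b z w = - gM (rp z) (ef z) (im4 w) := by
    intro z w
    rw [← NN_apply]
    have h1 : NN a b gM z (v z) = - l z := by
      show NN a b gM z (-((NN a b gM z).inverse (l z))) = - l z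
      rw [map_neg, ← EE_coe a b gM hb z, ContinuousLinearMap.inverse_equiv]
      simp
    rw [h1]
    simp [l, im4L_apply]
  have gau : ∀ z, q1 a z (v z) = 0 ∧ q2 b z (v z) = 0 := by
    intro z
    have hz : ∀ O, im4 O ∈ (Mab a b).O (rp z) → ∀ u ∈ (Mab a b).T (rp z),
        gM (rp z) u (im4 O) = 0 := by
      intro O hO u hu
      rw [hb.symm _ (rp_mem a b z) _ hu _ (im4_mem a b z O)]
      exact hb.horiz _ (rp_mem a b z) _ hO _ hu
    have k1 := key z (O1 a z)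
    have k2 := key z (O2 b z)
    rw [hz _ (O1_mem a b z) _ (im4_mem a b z _), hz _ (O1_mem a b z) _ (hT z)] at k1
    rw [hz _ (O2_mem a b z) _ (im4_mem a b z _), hz _ (O2_mem a b z) _ (hT z)] at k2
    have a1 := q1_apply a z (v z)
    have a2 := q2_apply b z (v z)
    have b11 := q1_apply a z (O1 a z)
    have b12 := q1_apply a z (O2 b z)
    have b21 := q2_apply b z (O1 a z)
    have b22 := q2_apply b z (O2 b z)
    simp only [O1, O2] at b11 b12 b21 b22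
    generalize hx : q1 a z (v z) = x at *
    generalize hy : q2 b z (v z) = y at *
    have hsum : (x * Real.cos z.1 + y * (b * Real.cos z.1)) * (x * Real.cos z.1 + y *
        (b * Real.cos z.1)) + (x * Real.sin z.1) * (x * Real.sin z.1) +
        (x * (a * Real.cos z.2) + y * Real.cos z.2) * (x * (a * Real.cos z.2) + y * Real.cos z.2) +
        (y * Real.sin z.2) * (y * Real.sin z.2) = 0 := by
      simp only [O1, O2] at k1 k2
      rw [b11, b21] at k1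
      rw [b12, b22] at k2
      linear_combination x * k1 + y * k2
    have n1 := mul_self_nonneg (x * Real.cos z.1 + y * (b * Real.cos z.1))
    have n2 := mul_self_nonneg (x * Real.sin z.1)
    have n3 := mul_self_nonneg (x * (a * Real.cos z.2) + y * Real.cos z.2)
    have n4 := mul_self_nonneg (y * Real.sin z.2)
    have z1 : x * Real.cos z.1 + y * (b * Real.cos z.1) = 0 := mul_self_eq_zero.1 (by linarith)
    have z2 : x * Real.sin z.1 = 0 := mul_self_eq_zero.1 (by linarith)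
    have z3 : x * (a * Real.cos z.2) + y * Real.cos z.2 = 0 := mul_self_eq_zero.1 (by linarith)
    have z4 : y * Real.sin z.2 = 0 := mul_self_eq_zero.1 (by linarith)
    have hxy : x * x + y * y = 0 := by
      linear_combination x * a1 + y * a2 + (v z).1 * z1 + (v z).2.1 * z2 + (v z).2.2.1 * z3 +
        (v z).2.2.2 * z4
    have m1 := mul_self_nonneg x
    have m2 := mul_self_nonneg y
    exact ⟨mul_self_eq_zero.1 (by linarith), mul_self_eq_zero.1 (by linarith)⟩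
  refine ⟨v, hv, ?_, ?_⟩
  · intro z
    have h := gau z
    rw [q1_apply, q2_apply] at h
    exact h
  · intro z w
    have h := key z w
    rw [(gau z).1, (gau z).2] at h
    rw [map_add, add_apply]
    linarith

end Pool.Agent.Helper86.QT.VLp

namespace Pool.Agent.Helper86.QT

theorem goalVL : Pool.Agent.Helper61.QT.G_VL := by
  intro a b gM hb
  obtain ⟨vr, h1, h2, h3⟩ := VLp.sol a b gM hb _ VLp.er_cd (VLp.er_mem a b)
  obtain ⟨vs, k1, k2, k3⟩ := VLp.sol a b gM hb _ VLp.es_cd (VLp.es_mem a b)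
  exact ⟨vr, vs, h1, k1, fun z => ⟨h2 z, k2 z⟩, h3, k3⟩

end Pool.Agent.Helper86.QT
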